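import Pool.Agent.H73.FRC.Mono

/-!
# Cells in steep fronts: the bound from the diagonal

`LipD`: at the windows of a dense set `W` the threshold grows from the diagonal at most linearly
with the radius. `exists_frontD`: fronts exist, with both windows in `W`. `frn_cellD`: every front
contains a cell `FCellD`, where all the thresholds at both windows are affine functions of the
radius up to `ε Y`, where each of them falls by at least `C Y` at all radii or by at most `ε Y`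
at all radii, and where the increments to the left, down to the diagonal, are bounded by
`D * (a - a') + ε Y`. `jmpN_of_cellD`: (J) from cells.
-/

set_option autoImplicit false

namespace Pool.STR

open MeasureTheory Set Filter Topology Pool.LEV

/-- The threshold grows from the diagonal at most linearly with the radius, at the windows in
`W`. -/
def LipD (P : ℝ → ℝ → ℝ) (W : Set ℝ) (D : ℝ) : Prop :=
  ∀ w ∈ W, 0 < w → ∀ q, 0 ≤ q → w + q ≤ 1 → P (w + q) w ≤ P w w + D * q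

/-- **Fronts exist**, with both windows in `W`. -/
theorem exists_frontD {P : ℝ → ℝ → ℝ} (hP : Law P) (h0 : ∀ w, 0 < w → w ≤ 1 → 0 ≤ P w w)
    {W : Set ℝ} (hW : Dense W) {D : ℝ} (hD : LipD P W D) {ε Q : ℝ} (hε : 0 < ε) (hQ : 0 < Q)
    (hQ1 : Q < 1) (hg0 : 0 < Lv P (Q, 0)) (hd : DifferentiableAt ℝ (fun Q => Lv P (Q, 0)) Q)
    (hd0 : deriv (fun Q => Lv P (Q, 0)) Q = 0)
    (hA : ∃ r₁ : ℝ, 0 < r₁ ∧ ∀ r : ℝ, 0 < r → r < r₁ → ∃ Q' : ℝ, Q - r ≤ Q' ∧ Q' ≤ Q - r / 2 ∧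
      ¬ Atm P Q') :
    ∃ r₁ : ℝ, 0 < r₁ ∧ ∀ r : ℝ, 0 < r → r < r₁ → ∃ w₀ ∈ W, ∃ w₁ ∈ W, Frn P D ε Q r w₀ w₁ := by
  obtain ⟨g, hg⟩ : ∃ g : ℝ → ℝ, g = fun Q => Lv P (Q, 0) := ⟨_, rfl⟩
  have hgm : Monotone g := by
    rw [hg]
    exact fun x y hxy => Lv_mono hP ⟨hxy, le_rfl⟩
  have hgQ : g Q ≤ Q := by
    rw [hg]
    exact Lv_diag_le hP h0 hQ hQ1
  have hgp : 0 < g Q := by
    rw [hg]
    exact hg0
  -- the derivative
  have h1 : HasDerivAt g 0 Q := by
    have h1' := hd.hasDerivAt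
    rw [hd0] at h1'
    rw [hg]
    exact h1'
  obtain ⟨e, he⟩ : ∃ e, e = ε / 8 := ⟨_, rfl⟩
  have he0 : 0 < e := by rw [he]; positivity
  have h2 : ∃ d : ℝ, 0 < d ∧ ∀ x : ℝ, |x| < d → |g (Q + x) - g Q| ≤ e * |x| := by
    have h3 := h1.isLittleO.def he0
    obtain ⟨d, hd, h4⟩ := Metric.eventually_nhds_iff.1 h3
    refine ⟨d, hd, fun x hx => ?_⟩
    have h5 := h4 (y := Q + x) (by rw [Real.dist_eq, add_sub_cancel_left]; exact hx)
    simpa using h5
  obtain ⟨d, hd1, h2⟩ := h2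
  obtain ⟨r₀, hr₀, hA⟩ := hA
  obtain ⟨r₁, hr₁⟩ : ∃ r₁, r₁ = min r₀ (min (d / 4) (min (Q / 4) (min ((1 - Q) / 4)
    (min (g Q / (8 * (1 + e))) ((1 - Q) / (8 * (1 + e))))))) := ⟨_, rfl⟩
  have e1 : 0 < g Q / (8 * (1 + e)) := by positivity
  have e2 : 0 < (1 - Q) / (8 * (1 + e)) := div_pos (by linarith) (by positivity)
  refine ⟨r₁, ?_, fun r hr hr' => ?_⟩
  · rw [hr₁]
    refine lt_min hr₀ (lt_min (by linarith) (lt_min (by linarith) (lt_min (by linarith)
      (lt_min e1 e2))))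
  have k1 : r < r₀ := by rw [hr₁] at hr'; exact lt_of_lt_of_le hr' (min_le_left _ _)
  have k2 : r < d / 4 := by
    rw [hr₁] at hr'
    exact lt_of_lt_of_le hr' ((min_le_right _ _).trans (min_le_left _ _))
  have k3 : r < Q / 4 := by
    rw [hr₁] at hr'
    exact lt_of_lt_of_le hr' ((min_le_right _ _).trans ((min_le_right _ _).trans
      (min_le_left _ _)))
  have k4 : r < (1 - Q) / 4 := by
    rw [hr₁] at hr'
    exact lt_of_lt_of_le hr' ((min_le_right _ _).trans ((min_le_right _ _).trans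
      ((min_le_right _ _).trans (min_le_left _ _))))
  have k5 : r < g Q / (8 * (1 + e)) := by
    rw [hr₁] at hr'
    exact lt_of_lt_of_le hr' ((min_le_right _ _).trans ((min_le_right _ _).trans
      ((min_le_right _ _).trans ((min_le_right _ _).trans (min_le_left _ _)))))
  have k6 : r < (1 - Q) / (8 * (1 + e)) := by
    rw [hr₁] at hr'
    exact lt_of_lt_of_le hr' ((min_le_right _ _).trans ((min_le_right _ _).trans
      ((min_le_right _ _).trans ((min_le_right _ _).trans (min_le_right _ _)))))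
  rw [lt_div_iff₀ (by positivity)] at k5 k6
  have er : 0 < e * r := by positivity
  obtain ⟨Q', q1, q2, q3⟩ := hA r hr k1
  obtain ⟨η, hη⟩ : ∃ η, η = r / 8 := ⟨_, rfl⟩
  have hη0 : 0 < η := by rw [hη]; positivity
  have q4 : g (Q' - η) < g (Q' + η) := by
    by_contra hc
    push Not at hc
    rw [hg] at hc
    exact q3 ⟨η, hη0, hc⟩
  -- the values of the diagonal level
  have g1 : g Q - e * (2 * r) ≤ g (Q' - η) := by
    have a1 := h2 (Q' - η - Q) (by rw [abs_lt]; constructor <;> linarith)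
    have a2 : |Q' - η - Q| ≤ 2 * r := by rw [abs_le]; constructor <;> linarith
    have a3 := (abs_le.1 a1).1
    have a4 := mul_le_mul_of_nonneg_left a2 he0.le
    rw [add_sub_cancel] at a3
    linarith
  have g2 : g (Q + r) ≤ g Q + e * r := by
    have a1 := h2 r (by rw [abs_of_pos hr]; linarith)
    rw [abs_of_pos hr] at a1
    have a3 := (abs_le.1 a1).2
    linarith
  have g3 : g (Q' + η) ≤ g (Q + r) := hgm (by linarith)
  obtain ⟨w₀, w₀W, w1, w2⟩ := hW.exists_between q4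
  obtain ⟨w₁, w₁W, w1', w2'⟩ := hW.exists_between (show g (Q + r) < g (Q + r) + e * r by linarith)
  have w3 : 0 < w₀ := by nlinarith
  have w4 : w₀ < w₁ := by linarith
  have w5 : w₁ + r ≤ 1 := by nlinarith
  -- the thresholds
  have p1 : Q' - η ≤ P w₀ w₀ := by
    have a1 : lev P (Q' - η) 0 < w₀ := by
      rw [← Lv_eq (P := P) le_rfl zero_le_one (by linarith) (by linarith)]
      rw [hg] at w1
      exact w1
    have a2 := le_of_lev_lt hP le_rfl zero_le_one a1 (by linarith)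
    rwa [sub_zero] at a2
  have p2 : P w₀ w₀ < Q' + η := by
    have a1 : w₀ < lev P (Q' + η) 0 := by
      rw [← Lv_eq (P := P) le_rfl zero_le_one (by linarith) (by linarith)]
      rw [hg] at w2
      exact w2
    have a2 := lt_of_lt_lev (P := P) zero_le_one w3.le a1
    rwa [sub_zero] at a2
  have p3 : Q + r ≤ P w₁ w₁ := by
    have a1 : lev P (Q + r) 0 < w₁ := by
      rw [← Lv_eq (P := P) le_rfl zero_le_one (by linarith) (by linarith)]
      rw [hg] at w1'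
      exact w1'
    have a2 := le_of_lev_lt hP le_rfl zero_le_one a1 (by linarith)
    rwa [sub_zero] at a2
  have hεe : ε * r = 8 * (e * r) := by rw [he]; ring
  refine ⟨w₀, w₀W, w₁, w₁W, w3, w4, w5, ?_, ?_, ?_, fun q hq hqr => ?_, fun q hq hq1 hqr => ?_,
    fun q hq hqr => ?_⟩
  · rw [hεe]
    linarith
  · rw [hεe]
    have : g Q = Lv P (Q, 0) := by rw [hg]
    linarith
  · rw [hεe]
    have : g Q = Lv P (Q, 0) := by rw [hg]
    linarith
  · have a1 := hP.mono_a w₀ (w₀ + q) w₀ w3.le le_rfl (by linarith) (by linarith)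
    linarith
  · have a1 := hD w₀ w₀W w3 q hq (by linarith)
    linarith
  · have a1 := hP.mono_a w₁ (w₁ + q) w₁ (by linarith) le_rfl (by linarith) (by linarith)
    linarith

/-- **Cell in a front**, with the thresholds at both windows and the backward bounds. -/
structure FCellD {ι : Type*} (L : ι → ℝ → ℝ → ℝ) (j : ι) (D ε C Q r w₀ w₁ a₀ Y : ℝ)
    (s s₁ : ι → ℝ) (G : Set ι) : Prop extends FCell L j D ε C Q r w₀ w₁ a₀ Y s G where
  t0 : ∀ i, 0 ≤ s₁ i
  t1 : ∀ i, s₁ i ≤ D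
  aff₁ : ∀ i a, |a - a₀| ≤ Y → |L i a w₁ - L i a₀ w₁ - s₁ i * (a - a₀)| ≤ ε * Y
  back₀ : ∀ i a a', |a - a₀| ≤ Y → w₀ ≤ a' → a' ≤ a →
    L i a w₀ - L i a' w₀ ≤ D * (a - a') + ε * Y
  back₁ : ∀ i a a', |a - a₀| ≤ Y → w₁ ≤ a' → a' ≤ a →
    L i a w₁ - L i a' w₁ ≤ D * (a - a') + ε * Y

/-- **Fronts contain cells.** The constant of the cells is `(4 card ι + 2) D`. -/
theorem frn_cellD {ι : Type*} [Finite ι] {D ε C : ℝ} (hD : 1 ≤ D) (hε : 0 < ε) (hC : 0 < C) :
    ∃ δ ε' : ℝ, 0 < δ ∧ 0 < ε' ∧ ∀ (L : ι → ℝ → ℝ → ℝ) (j : ι) (W : Set ℝ), (∀ i, Law (L i)) →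
      (∀ i, LipD (L i) W D) → ∀ Q r w₀ w₁ : ℝ, 0 < r → w₀ ∈ W → w₁ ∈ W →
      Frn (L j) D ε' Q r w₀ w₁ →
      ∃ (a₀ Y : ℝ) (s s₁ : ι → ℝ) (G : Set ι), δ * r ≤ Y ∧
        FCellD L j ((4 * Nat.card ι + 2) * D) ε C Q r w₀ w₁ a₀ Y s s₁ G := by
  classical
  obtain ⟨M, hM⟩ : ∃ M : ℝ, M = 2 * Nat.card ι + 1 := ⟨_, rfl⟩
  have hM1 : 1 ≤ M := by rw [hM]; linarith [show (0 : ℝ) ≤ 2 * Nat.card ι by positivity]
  have hMc : (Nat.card (ι × Bool) : ℝ) < M := by
    rw [Nat.card_prod, hM]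
    push_cast
    have : (Nat.card Bool : ℝ) = 2 := by simp
    rw [this]
    linarith
  have hMD : (4 * (Nat.card ι : ℝ) + 2) * D = 2 * M * D := by rw [hM]; ring
  obtain ⟨c, hc⟩ : ∃ c, c = 1 / (8 * D) := ⟨_, rfl⟩
  have hc0 : 0 < c := by rw [hc]; positivity
  have hcD : c * D = 1 / 8 := by rw [hc]; field_simp
  have hc1 : c ≤ 1 / 8 := by nlinarith
  obtain ⟨ε₁, hε₁⟩ : ∃ x, x = min (ε / (2 * D)) (1 / 2) := ⟨_, rfl⟩
  have hε₁0 : 0 < ε₁ := by rw [hε₁]; exact lt_min (by positivity) (by norm_num)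
  have hε₁1 : 2 * D * ε₁ ≤ ε := by
    have h1 : ε₁ ≤ ε / (2 * D) := by rw [hε₁]; exact min_le_left _ _
    rw [le_div_iff₀ (by positivity)] at h1
    linarith
  have hε₁2 : ε₁ ≤ 1 / 2 := by rw [hε₁]; exact min_le_right _ _
  obtain ⟨δ, hδ, key⟩ := common_mono (κ := ι × Bool) (ι := ι) (fun i => (i, false))
    (fun i => (i, true)) hε₁0 (show 0 < C by positivity) hM1 hMc
  obtain ⟨ε', hε'⟩ : ∃ x, x = min (ε * (c / 2 * δ)) (c / 2 * δ) := ⟨_, rfl⟩
  have hε'0 : 0 < ε' := by rw [hε']; exact lt_min (by positivity) (by positivity)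
  have hε'1 : ε' ≤ ε * (c / 2 * δ) := by rw [hε']; exact min_le_left _ _
  have hε'2 : ε' ≤ c / 2 * δ := by rw [hε']; exact min_le_right _ _
  refine ⟨c / 2 * δ, ε', by positivity, hε'0, fun L j W hL hl Q r w₀ w₁ hr hw₀ hw₁ hF => ?_⟩
  have cr0 : 0 < c * r := by positivity
  have cr1 : c * r ≤ r := by nlinarith
  have hcrD : D * (c * r) = r / 8 := by
    have : D * (c * r) = c * D * r := by ring
    rw [this, hcD]
    ring
  have hw01 : w₁ - w₀ ≤ c / 2 * δ * r := hF.thin.trans (mul_le_mul_of_nonneg_right hε'2 hr.le)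
  have hw1 : w₁ + r ≤ 1 := hF.le1
  have hw0p : 0 < w₀ := hF.pos
  have hlt : w₀ < w₁ := hF.lt
  obtain ⟨A, hA⟩ : ∃ A : ℝ → ℝ, A = fun x => w₀ + c * r * cl x := ⟨_, rfl⟩
  have hA0 : ∀ x, w₀ ≤ A x := by
    intro x
    rw [hA]
    show w₀ ≤ w₀ + c * r * cl x
    have := mul_nonneg cr0.le (cl_nonneg x)
    linarith
  have hA1 : ∀ x, A x ≤ w₀ + c * r := by
    intro x
    rw [hA]
    show w₀ + c * r * cl x ≤ _
    have := mul_le_mul_of_nonneg_left (cl_le_one x) cr0.le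
    linarith
  have hA2 : ∀ x, A x ≤ 1 := fun x => by
    have h1 := hA1 x
    linarith
  have hAm : ∀ x y, x ≤ y → A x ≤ A y := by
    intro x y hxy
    rw [hA]
    show w₀ + c * r * cl x ≤ w₀ + c * r * cl y
    have := mul_le_mul_of_nonneg_left (cl_mono hxy) cr0.le
    linarith
  obtain ⟨f, hf⟩ : ∃ f : ι × Bool → ℝ → ℝ, f = fun k x => cond k.2
    (8 * (L k.1 (max (A x) w₁) w₁ - L k.1 w₁ w₁) / r)
    (8 * (L k.1 (A x) w₀ - L k.1 w₀ w₀) / r) := ⟨_, rfl⟩
  have f0 : ∀ i x, f (i, false) x = 8 * (L i (A x) w₀ - L i w₀ w₀) / r := fun i x => by rw [hf]; rfl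
  have f1 : ∀ i x, f (i, true) x = 8 * (L i (max (A x) w₁) w₁ - L i w₁ w₁) / r :=
    fun i x => by rw [hf]; rfl
  obtain ⟨d, hd⟩ : ∃ d : ι → ℝ, d = fun i => min 2 (8 * (L i w₁ w₁ - L i w₀ w₀) / r) := ⟨_, rfl⟩
  have hmax : ∀ x, w₁ ≤ max (A x) w₁ ∧ max (A x) w₁ ≤ w₁ + c * r := fun x =>
    ⟨le_max_right _ _, max_le (by linarith [hA1 x]) (by linarith)⟩
  have up0 : ∀ i x, L i (A x) w₀ - L i w₀ w₀ ≤ r / 8 := by
    intro i x
    have h1 := hl i w₀ hw₀ hw0p (A x - w₀) (by linarith [hA0 x]) (by linarith [hA2 x])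
    rw [add_sub_cancel] at h1
    have h2 : D * (A x - w₀) ≤ D * (c * r) :=
      mul_le_mul_of_nonneg_left (by linarith [hA1 x]) (by linarith)
    linarith
  have up1 : ∀ i x, L i (max (A x) w₁) w₁ - L i w₁ w₁ ≤ r / 8 := by
    intro i x
    obtain ⟨h3, h4⟩ := hmax x
    have h1 := hl i w₁ hw₁ (by linarith) (max (A x) w₁ - w₁) (by linarith) (by linarith)
    rw [add_sub_cancel] at h1
    have h2 : D * (max (A x) w₁ - w₁) ≤ D * (c * r) :=
      mul_le_mul_of_nonneg_left (by linarith) (by linarith)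
    linarith
  have lo0 : ∀ i x, 0 ≤ L i (A x) w₀ - L i w₀ w₀ := fun i x =>
    sub_nonneg.2 ((hL i).mono_a w₀ (A x) w₀ hw0p.le le_rfl (hA0 x) (hA2 x))
  have lo1 : ∀ i x, 0 ≤ L i (max (A x) w₁) w₁ - L i w₁ w₁ := fun i x =>
    sub_nonneg.2 ((hL i).mono_a w₁ _ w₁ (by linarith) le_rfl (hmax x).1 (by linarith [(hmax x).2]))
  obtain ⟨p, X, s, hX1, hX2, hX3, hs0, hsM, haff, hback, halt⟩ := key f d (by
    rintro ⟨i, b⟩ x y hxy
    cases b with
    | false =>
      rw [f0, f0]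
      have := (hL i).mono_a (A x) (A y) w₀ hw0p.le (hA0 x) (hAm x y hxy) (hA2 y)
      gcongr
    | true =>
      rw [f1, f1]
      have := (hL i).mono_a (max (A x) w₁) (max (A y) w₁) w₁ (by linarith) (hmax x).1
        (max_le_max_right _ (hAm x y hxy)) (by linarith [(hmax y).2])
      gcongr) (by
    rintro ⟨i, b⟩ x
    cases b with
    | false => rw [f0]; exact div_nonneg (by linarith [lo0 i x]) hr.le
    | true => rw [f1]; exact div_nonneg (by linarith [lo1 i x]) hr.le) (by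
    rintro ⟨i, b⟩ x
    cases b with
    | false => rw [f0, div_le_one hr]; linarith [up0 i x]
    | true => rw [f1, div_le_one hr]; linarith [up1 i x]) (by
    intro i
    rw [hd]
    refine le_min zero_le_two (div_nonneg ?_ hr.le)
    have h1 := (hL i).mono_a w₀ w₁ w₀ hw0p.le le_rfl hlt.le (by linarith)
    have h2 := (hL i).mono_w w₁ w₀ w₁ hw0p.le hlt.le le_rfl (by linarith)
    linarith) (fun i => by rw [hd]; exact min_le_left _ _) (by
    intro i x _ _
    rw [f0, f1, hd]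
    show 0 ≤ min 2 (8 * (L i w₁ w₁ - L i w₀ w₀) / r) +
      8 * (L i (max (A x) w₁) w₁ - L i w₁ w₁) / r - 8 * (L i (A x) w₀ - L i w₀ w₀) / r
    rcases min_cases 2 (8 * (L i w₁ w₁ - L i w₀ w₀) / r) with ⟨h1, _⟩ | ⟨h1, _⟩
    · rw [h1]
      have h2 : 8 * (L i (A x) w₀ - L i w₀ w₀) / r ≤ 1 := by
        rw [div_le_one hr]
        linarith [up0 i x]
      have h3 : 0 ≤ 8 * (L i (max (A x) w₁) w₁ - L i w₁ w₁) / r :=
        div_nonneg (by linarith [lo1 i x]) hr.le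
      linarith
    · rw [h1]
      have h2 : L i (A x) w₀ ≤ L i (max (A x) w₁) w₁ := by
        have h3 := (hL i).mono_a (A x) (max (A x) w₁) w₀ hw0p.le (hA0 x) (le_max_left _ _)
          (by linarith [(hmax x).2])
        have h4 := (hL i).mono_w (max (A x) w₁) w₀ w₁ hw0p.le hlt.le (hmax x).1
          (by linarith [(hmax x).2])
        linarith
      have h3 : 8 * (L i w₁ w₁ - L i w₀ w₀) / r + 8 * (L i (max (A x) w₁) w₁ - L i w₁ w₁) / r -
          8 * (L i (A x) w₀ - L i w₀ w₀) / r = 8 * (L i (max (A x) w₁) w₁ - L i (A x) w₀) / r := by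
        field_simp
        ring
      rw [h3]
      exact div_nonneg (by linarith) hr.le)
  have hX0 : 0 < X := hδ.trans_le hX1
  have hXone : X ≤ 1 := by linarith
  obtain ⟨Y, hY⟩ : ∃ Y, Y = c * r * (X / 2) := ⟨_, rfl⟩
  have hY0 : 0 < Y := by rw [hY]; positivity
  obtain ⟨a₀, ha₀⟩ : ∃ a, a = w₀ + c * r * p := ⟨_, rfl⟩
  -- the parameter of a radius
  have hAx : ∀ x, 0 ≤ x → x ≤ 1 → A x = w₀ + c * r * x := by
    intro x h1 h2
    rw [hA]
    show w₀ + c * r * cl x = _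
    rw [cl_of_mem h1 h2]
  have hAp : A p = a₀ := by rw [hAx p (by linarith) (by linarith), ha₀]
  have par : ∀ a, |a - a₀| ≤ Y → ∃ x, |x - p| ≤ X / 2 ∧ A x = a ∧ a - a₀ = c * r * (x - p) := by
    intro a haY
    have h1 : |(a - a₀) / (c * r)| ≤ X / 2 := by
      rw [abs_div, abs_of_pos cr0, div_le_iff₀ cr0]
      rw [hY] at haY
      linarith
    refine ⟨p + (a - a₀) / (c * r), ?_, ?_, ?_⟩
    · rw [add_sub_cancel_left]
      exact h1
    · rw [abs_le] at h1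
      rw [hAx _ (by linarith) (by linarith), ha₀]
      field_simp
      ring
    · rw [add_sub_cancel_left]
      field_simp
  have hleft : w₁ ≤ a₀ - Y := by
    rw [ha₀, hY]
    have h1 : c * r * (δ / 2) ≤ c * r * (p - X / 2) :=
      mul_le_mul_of_nonneg_left (by linarith) cr0.le
    have h2 : c / 2 * δ * r = c * r * (δ / 2) := by ring
    rw [h2] at hw01
    linarith
  -- radii of the cell
  have rad : ∀ a, |a - a₀| ≤ Y → w₁ ≤ a ∧ a ≤ w₀ + c * r ∧ a ≤ w₀ + r ∧ a ≤ 1 := by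
    intro a haY
    obtain ⟨x, -, hx, -⟩ := par a haY
    have h1 := hA1 x
    have h2 := hA2 x
    rw [hx] at h1 h2
    exact ⟨by linarith [(abs_le.1 haY).1], h1, by linarith, h2⟩
  have hXY : r / 8 * X = 2 * D * Y := by
    rw [hY, ← hcrD]
    ring
  have hXX : ∀ x, |x - p| ≤ X / 2 → |x - p| ≤ X := fun x hx => hx.trans (by linarith)
  have hεY : r / 8 * (ε₁ * X) ≤ ε * Y := by
    have h1 : r / 8 * (ε₁ * X) = 2 * D * ε₁ * Y := by
      have : r / 8 * (ε₁ * X) = r / 8 * X * ε₁ := by ring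
      rw [this, hXY]
      ring
    rw [h1]
    exact mul_le_mul_of_nonneg_right hε₁1 hY0.le
  -- the parameters of all radii
  have par2 : ∀ a, w₀ ≤ a → a ≤ w₀ + c * r → ∃ y, 0 ≤ y ∧ y ≤ 1 ∧ A y = a ∧ a = w₀ + c * r * y := by
    intro a h1 h2
    have h3 : 0 ≤ (a - w₀) / (c * r) := div_nonneg (by linarith) cr0.le
    have h4 : (a - w₀) / (c * r) ≤ 1 := by
      rw [div_le_one cr0]
      linarith
    have h5 : a = w₀ + c * r * ((a - w₀) / (c * r)) := by field_simp; ring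
    exact ⟨_, h3, h4, by rw [hAx _ h3 h4]; exact h5.symm, h5⟩
  have e0 : ∀ i x y, f (i, false) x - f (i, false) y = (L i (A x) w₀ - L i (A y) w₀) / (r / 8) := by
    intro i x y
    rw [f0, f0]
    field_simp
    ring
  have e1 : ∀ i x y, w₁ ≤ A x → w₁ ≤ A y →
      f (i, true) x - f (i, true) y = (L i (A x) w₁ - L i (A y) w₁) / (r / 8) := by
    intro i x y hx hy
    rw [f1, f1, max_eq_left hx, max_eq_left hy]
    field_simp
    ring
  have hr8 : 0 < r / 8 := by positivity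
  have hp0 : |a₀ - a₀| ≤ Y := by rw [sub_self, abs_zero]; exact hY0.le
  have hw1a : w₁ ≤ A p := by rw [hAp]; exact (rad a₀ hp0).1
  -- the increments at the windows
  have aff0 : ∀ i a, |a - a₀| ≤ Y →
      |L i a w₀ - L i a₀ w₀ - s (i, false) * D * (a - a₀)| ≤ ε * Y := by
    intro i a haY
    obtain ⟨x, hx1, hx2, hx3⟩ := par a haY
    have h1 := haff (i, false) x (hXX x hx1)
    rw [e0, hx2, hAp] at h1
    have h2 : L i a w₀ - L i a₀ w₀ - s (i, false) * D * (a - a₀) = r / 8 *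
        ((L i a w₀ - L i a₀ w₀) / (r / 8) - s (i, false) * (x - p)) := by
      rw [hx3]
      have h3 : r / 8 * ((L i a w₀ - L i a₀ w₀) / (r / 8) - s (i, false) * (x - p)) =
          (L i a w₀ - L i a₀ w₀) - r / 8 * (s (i, false) * (x - p)) := by
        field_simp
      rw [h3, ← hcrD]
      ring
    rw [h2, abs_mul, abs_of_pos hr8]
    exact (mul_le_mul_of_nonneg_left h1 hr8.le).trans hεY
  have aff1 : ∀ i a, |a - a₀| ≤ Y →
      |L i a w₁ - L i a₀ w₁ - s (i, true) * D * (a - a₀)| ≤ ε * Y := by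
    intro i a haY
    obtain ⟨x, hx1, hx2, hx3⟩ := par a haY
    have h1 := haff (i, true) x (hXX x hx1)
    rw [e1 i x p (by rw [hx2]; exact (rad a haY).1) hw1a, hx2, hAp] at h1
    have h2 : L i a w₁ - L i a₀ w₁ - s (i, true) * D * (a - a₀) = r / 8 *
        ((L i a w₁ - L i a₀ w₁) / (r / 8) - s (i, true) * (x - p)) := by
      rw [hx3]
      have h3 : r / 8 * ((L i a w₁ - L i a₀ w₁) / (r / 8) - s (i, true) * (x - p)) =
          (L i a w₁ - L i a₀ w₁) - r / 8 * (s (i, true) * (x - p)) := by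
        field_simp
      rw [h3, ← hcrD]
      ring
    rw [h2, abs_mul, abs_of_pos hr8]
    exact (mul_le_mul_of_nonneg_left h1 hr8.le).trans hεY
  -- differences of the thresholds
  have dle : ∀ i x, w₁ ≤ A x → d i + f (i, true) x - f (i, false) x ≤
      (L i (A x) w₁ - L i (A x) w₀) / (r / 8) := by
    intro i x hx
    have h1 : d i ≤ 8 * (L i w₁ w₁ - L i w₀ w₀) / r := by rw [hd]; exact min_le_right _ _
    have h2 : 8 * (L i w₁ w₁ - L i w₀ w₀) / r + f (i, true) x - f (i, false) x =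
        (L i (A x) w₁ - L i (A x) w₀) / (r / 8) := by
      rw [f0, f1, max_eq_left hx]
      field_simp
      ring
    linarith
  have dge : ∀ i x, w₁ ≤ A x → d i + f (i, true) x - f (i, false) x < 1 →
      d i + f (i, true) x - f (i, false) x = (L i (A x) w₁ - L i (A x) w₀) / (r / 8) := by
    intro i x hx hx1
    have h2 : 8 * (L i w₁ w₁ - L i w₀ w₀) / r + f (i, true) x - f (i, false) x =
        (L i (A x) w₁ - L i (A x) w₀) / (r / 8) := by
      rw [f0, f1, max_eq_left hx]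
      field_simp
      ring
    have h3 : f (i, false) x ≤ 1 := by
      rw [f0, div_le_one hr]
      linarith [up0 i x]
    have h4 : 0 ≤ f (i, true) x := by
      rw [f1]
      exact div_nonneg (by linarith [lo1 i x]) hr.le
    have h5 : d i = 8 * (L i w₁ w₁ - L i w₀ w₀) / r := by
      rw [hd] at hx1 ⊢
      have h6 : min 2 (8 * (L i w₁ w₁ - L i w₀ w₀) / r) + f (i, true) x - f (i, false) x < 1 := hx1
      show min 2 (8 * (L i w₁ w₁ - L i w₀ w₀) / r) = _
      rcases min_cases 2 (8 * (L i w₁ w₁ - L i w₀ w₀) / r) with ⟨h7, _⟩ | ⟨h7, _⟩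
      · rw [h7] at h6
        linarith
      · exact h7
    rw [h5, h2]
  obtain ⟨G, hG⟩ : ∃ G : Set ι, G = {i | ∀ x, |x - p| ≤ X →
    C * X ≤ d i + f (i, true) x - f (i, false) x} := ⟨_, rfl⟩
  have hnot : ∀ i ∉ G, ∀ x, |x - p| ≤ X → d i + f (i, true) x - f (i, false) x ≤ ε₁ * X := by
    intro i hi
    rcases halt i with h | h
    · exact absurd (by rw [hG]; exact h) hi
    · exact h
  have hε₁X : ε₁ * X < 1 := by nlinarith
  have hstay : ∀ i ∉ G, ∀ a, |a - a₀| ≤ Y → L i a w₁ - L i a w₀ ≤ ε * Y := by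
    intro i hi a haY
    obtain ⟨x, hx1, hx2, hx3⟩ := par a haY
    have h1 := hnot i hi x (hXX x hx1)
    have h2 := dge i x (by rw [hx2]; exact (rad a haY).1) (lt_of_le_of_lt h1 hε₁X)
    rw [h2, hx2, div_le_iff₀ hr8] at h1
    linarith
  have hmid : ∀ a, |a - a₀| ≤ Y → L j a w₀ ≤ Q - r / 4 := by
    intro a haY
    obtain ⟨k1, k2, k3, k4⟩ := rad a haY
    have h1 := hF.mid (a - w₀) (by linarith) (by
      rw [← hcrD]
      exact mul_le_mul_of_nonneg_left (by linarith) (by linarith)) (by linarith)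
    rwa [add_sub_cancel] at h1
  have hhi : ∀ a, |a - a₀| ≤ Y → Q + r ≤ L j a w₁ := by
    intro a haY
    obtain ⟨k1, k2, k3, k4⟩ := rad a haY
    have h1 := hF.hi (a - w₁) (by linarith) (by linarith)
    rwa [add_sub_cancel] at h1
  have hYr : Y ≤ r / 16 := by
    rw [hY]
    have h1 : c * r * (X / 2) ≤ c * r * (1 / 2) :=
      mul_le_mul_of_nonneg_left (by linarith) cr0.le
    nlinarith
  have hδY : c / 2 * δ * r ≤ Y := by
    rw [hY]
    have := mul_le_mul_of_nonneg_left hX1 cr0.le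
    linarith
  have hthin : ε' * r ≤ ε * Y := by
    have h1 : ε' * r ≤ ε * (c / 2 * δ) * r := mul_le_mul_of_nonneg_right hε'1 hr.le
    have h3 := mul_le_mul_of_nonneg_left hδY hε.le
    nlinarith
  have hsD : ∀ k, 0 ≤ s k * D := fun k => mul_nonneg (hs0 k) (by linarith)
  have hsD' : ∀ k, s k * D ≤ (4 * Nat.card ι + 2) * D := by
    intro k
    rw [hMD]
    have h1 := mul_le_mul_of_nonneg_right (hsM k) (by linarith : (0 : ℝ) ≤ D)
    have h2 : 0 ≤ M * D := by positivity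
    linarith
  refine ⟨a₀, Y, fun i => s (i, false) * D, fun i => s (i, true) * D, G, hδY, ?_⟩
  refine
    { pos := hw0p
      lt := hlt
      left := hleft
      right := (rad (a₀ + Y) (by rw [add_sub_cancel_left, abs_of_pos hY0])).2.2.1
      right1 := (rad (a₀ + Y) (by rw [add_sub_cancel_left, abs_of_pos hY0])).2.2.2
      thin := hF.thin.trans hthin
      near₀ := by linarith [hF.near₀]
      near₁ := by linarith [hF.near₁]
      s0 := fun i => hsD _
      s1 := fun i => hsD' _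
      aff := aff0
      fall := fun i hi a haY => ?_
      stay := hstay
      mem := ?_
      lo := fun a haY => ?_
      mid := hmid
      hi := hhi
      t0 := fun i => hsD _
      t1 := fun i => hsD' _
      aff₁ := aff1
      back₀ := fun i a a' haY ha' haa => ?_
      back₁ := fun i a a' haY ha' haa => ?_ }
  · obtain ⟨x, hx1, hx2, hx3⟩ := par a haY
    rw [hG] at hi
    have h1 := hi x (hXX x hx1)
    have h2 := dle i x (by rw [hx2]; exact (rad a haY).1)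
    rw [hx2, le_div_iff₀ hr8] at h2
    have h3 : C * X * (r / 8) ≤ (d i + f (i, true) x - f (i, false) x) * (r / 8) :=
      mul_le_mul_of_nonneg_right h1 hr8.le
    have h4 : C * X * (r / 8) = C * (2 * D * Y) := by rw [← hXY]; ring
    have h5 : C * Y ≤ C * (2 * D * Y) := mul_le_mul_of_nonneg_left (by nlinarith) hC.le
    linarith
  · by_contra hcon
    have h1 := hstay j hcon a₀ hp0
    have h2 := hmid a₀ hp0
    have h3 := hhi a₀ hp0
    have h4 := hnot j hcon p (by rw [sub_self, abs_zero]; exact hX0.le)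
    have h5 := dge j p hw1a (lt_of_le_of_lt h4 hε₁X)
    rw [h5, hAp, div_le_iff₀ hr8] at h4
    nlinarith
  · obtain ⟨k1, k2, k3, k4⟩ := rad a haY
    have h1 := hF.lo (a - w₀) (by linarith) (by linarith)
    rwa [add_sub_cancel] at h1
  · obtain ⟨x, hx1, hx2, hx3⟩ := par a haY
    obtain ⟨y, hy0, hy1, hy2, hy3⟩ := par2 a' ha' (haa.trans (rad a haY).2.1)
    have hyx : y ≤ x := by
      have h1 : a = w₀ + c * r * x := by
        have : a = a₀ + c * r * (x - p) := by linarith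
        rw [this, ha₀]
        ring
      have h2 : c * r * y ≤ c * r * x := by linarith
      exact le_of_mul_le_mul_left h2 cr0
    have h1 := hback (i, false) x y (hXX x hx1) hy0 hyx
    rw [e0, hx2, hy2, div_le_iff₀ hr8] at h1
    have h2 : a - a' = c * r * (x - y) := by
      have : a = a₀ + c * r * (x - p) := by linarith
      rw [this, ha₀, hy3]
      ring
    rw [hMD]
    have h3 : 2 * M * (x - y) * (r / 8) = 2 * M * D * (a - a') := by
      rw [h2, ← hcrD]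
      ring
    linarith
  · obtain ⟨x, hx1, hx2, hx3⟩ := par a haY
    obtain ⟨y, hy0, hy1, hy2, hy3⟩ := par2 a' (hlt.le.trans ha') (haa.trans (rad a haY).2.1)
    have hyx : y ≤ x := by
      have h1 : a = w₀ + c * r * x := by
        have : a = a₀ + c * r * (x - p) := by linarith
        rw [this, ha₀]
        ring
      have h2 : c * r * y ≤ c * r * x := by linarith
      exact le_of_mul_le_mul_left h2 cr0
    have h1 := hback (i, true) x y (hXX x hx1) hy0 hyx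
    rw [e1 i x y (by rw [hx2]; exact (rad a haY).1) (by rw [hy2]; exact ha'), hx2, hy2,
      div_le_iff₀ hr8] at h1
    have h2 : a - a' = c * r * (x - y) := by
      have : a = a₀ + c * r * (x - p) := by linarith
      rw [this, ha₀, hy3]
      ring
    rw [hMD]
    have h3 : 2 * M * (x - y) * (r / 8) = 2 * M * D * (a - a') := by
      rw [h2, ← hcrD]
      ring
    linarith

/-- **(F) in the form of cells**, for the threshold `L j` among the thresholds `L i`; the windows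
of the cells are in `W`. -/
def FrnD {ι : Type*} (L : ι → ℝ → ℝ → ℝ) (j : ι) (ρ : ℝ → ℝ) (W : Set ℝ) (D : ℝ) : Prop :=
  ∀ h : ℝ, 0 < h → ∃ ε C : ℝ, 0 < ε ∧ 0 < C ∧ ∀ δ : ℝ, 0 < δ → ∀ᵐ Q : ℝ, 0 < Q → Q < 1 →
    0 < Lv (L j) (Q, 0) → ¬ Atm (L j) Q → DifferentiableAt ℝ ρ Q → deriv ρ Q < 1 - h →
    ∀ r₁ : ℝ, 0 < r₁ → ∃ r : ℝ, 0 < r ∧ r < r₁ ∧ ∀ (w₀ w₁ a₀ Y : ℝ) (s s₁ : ι → ℝ) (G : Set ι),
      w₀ ∈ W → w₁ ∈ W → δ * r ≤ Y → ¬ FCellD L j D ε C Q r w₀ w₁ a₀ Y s s₁ G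

/-- **(J) from cells in fronts.** -/
theorem jmpN_of_cellD {ι : Type*} [Finite ι] {L : ι → ℝ → ℝ → ℝ} {j : ι} {ρ : ℝ → ℝ} {W : Set ℝ}
    {D : ℝ} (hD : 1 ≤ D) (hW : Dense W) (hL : ∀ i, Law (L i)) (hl : ∀ i, LipD (L i) W D)
    (h0 : ∀ w, 0 < w → w ≤ 1 → 0 ≤ L j w w) (hJ : JmpA (L j) ρ)
    (h : FrnD L j ρ W ((4 * Nat.card ι + 2) * D)) : JmpN (L j) ρ := by
  intro η hη
  obtain ⟨ε, C, hε, hC, h1⟩ := h η hη
  obtain ⟨δ, ε', hδ, hε', h2⟩ := frn_cellD (ι := ι) hD hε hC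
  obtain ⟨S, hS⟩ : ∃ S : Set ℝ, S = {Q | 0 < Q ∧ Q < 1 ∧ 0 < Lv (L j) (Q, 0) ∧
    DifferentiableAt ℝ ρ Q ∧ deriv ρ Q < 1 - η ∧ ¬ Atm (L j) Q} := ⟨_, rfl⟩
  filter_upwards [h1 δ hδ, hJ η hη, density S] with Q k1 k2 k3 hQ hQ1 hg hd hd0 hρ
  by_contra hcon
  push Not at hcon
  have hA : ¬ Atm (L j) Q := fun hc => absurd (k2 hQ hQ1 hg hc hρ) (not_le.2 hcon)
  obtain ⟨r₁, hr₁, h3⟩ := k3 (by rw [hS]; exact ⟨hQ, hQ1, hg, hρ, hcon, hA⟩)
  obtain ⟨r₂, hr₂, h4⟩ := exists_frontD (hL j) h0 hW (hl j) hε' hQ hQ1 hg hd hd0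
    ⟨r₁, hr₁, fun r hr hr' => by
      obtain ⟨Q', a, b, c⟩ := h3 r hr hr'
      rw [hS] at c
      exact ⟨Q', a, b, c.2.2.2.2.2⟩⟩
  obtain ⟨r, hr, hr', h5⟩ := k1 hQ hQ1 hg hA hρ hcon r₂ hr₂
  obtain ⟨w₀, hw₀, w₁, hw₁, h6⟩ := h4 r hr hr'
  obtain ⟨a₀, Y, s, s₁, G, m1, m2⟩ := h2 L j W hL hl Q r w₀ w₁ hr hw₀ hw₁ h6
  exact h5 w₀ w₁ a₀ Y s s₁ G hw₀ hw₁ m1 m2

end Pool.STR
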