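import Pool.Agent.H22.GEN.Frc

/-!
# Common affine intervals of monotone functions

`common_mono`: finitely many monotone functions with values in `[0, 1]` and finitely many
differences of them have, on an interval of length at least `δ`, affine approximations up to
`ε X`; the increments to the left of the points of the interval are at most `2 M` times the
distance, up to `ε X` (`M` larger than the number of the functions); and each difference is large
or small on the interval.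
-/

set_option autoImplicit false

namespace Pool.STR

open MeasureTheory Set Filter Topology Pool.LEV

/-- The increments to the left of `p` are at most `M` times the distance. -/
def Bk (M : ℝ) (f : ℝ → ℝ) (p : ℝ) : Prop := ∀ y, 0 ≤ y → y ≤ p → f p - f y ≤ M * (p - y)

/-- **Rising sun.** -/
theorem exists_bk {F : ℝ → ℝ} (hF : Monotone F) {M : ℝ} (hM : 0 < M) (h : F 1 - F 0 < M)
    {S : ℝ → Prop} (hS : ∀ᵐ p : ℝ, S p) : ∃ p, S p ∧ 0 < p ∧ p < 1 ∧ Bk M F p := by
  by_contra hcon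
  push Not at hcon
  obtain ⟨φ, hφ⟩ : ∃ φ : ℝ → ℝ, φ = fun x => sInf ((fun y => F y + M * (x - y)) '' Icc 0 x) :=
    ⟨_, rfl⟩
  have bdd : ∀ x, BddBelow ((fun y => F y + M * (x - y)) '' Icc 0 x) := by
    intro x
    refine ⟨F 0, ?_⟩
    rintro z ⟨y, hy, rfl⟩
    have h1 := hF hy.1
    have h2 : 0 ≤ M * (x - y) := mul_nonneg hM.le (sub_nonneg.2 hy.2)
    show F 0 ≤ F y + M * (x - y)
    linarith
  have le_of : ∀ x y, 0 ≤ y → y ≤ x → φ x ≤ F y + M * (x - y) := by
    intro x y hy hyx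
    rw [hφ]
    exact csInf_le (bdd x) ⟨y, ⟨hy, hyx⟩, rfl⟩
  have ge_of : ∀ x c, 0 ≤ x → (∀ y, 0 ≤ y → y ≤ x → c ≤ F y + M * (x - y)) → c ≤ φ x := by
    intro x c hx hc
    rw [hφ]
    refine le_csInf ⟨_, ⟨0, ⟨le_rfl, hx⟩, rfl⟩⟩ ?_
    rintro z ⟨y, hy, rfl⟩
    exact hc y hy.1 hy.2
  have le_self : ∀ x, 0 ≤ x → φ x ≤ F x := by
    intro x hx
    have := le_of x x hx le_rfl
    rwa [sub_self, mul_zero, add_zero] at this
  have mono : ∀ x x', 0 ≤ x → x ≤ x' → φ x ≤ φ x' := by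
    intro x x' hx hxx
    refine ge_of x' _ (hx.trans hxx) fun y hy hyx => ?_
    rcases le_total y x with h1 | h1
    · have h2 := le_of x y hy h1
      have h3 := mul_le_mul_of_nonneg_left (sub_le_sub_right hxx y) hM.le
      linarith
    · have h2 := le_self x hx
      have h3 := hF h1
      have h4 : 0 ≤ M * (x' - y) := mul_nonneg hM.le (sub_nonneg.2 hyx)
      linarith
  have up : ∀ x x', 0 ≤ x → x ≤ x' → φ x' ≤ φ x + M * (x' - x) := by
    intro x x' hx hxx
    have h1 : φ x' - M * (x' - x) ≤ φ x := by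
      refine ge_of x _ hx fun y hy hyx => ?_
      have h2 := le_of x' y hy (hyx.trans hxx)
      have h3 : M * (x' - y) = M * (x' - x) + M * (x - y) := by ring
      linarith
    linarith
  have lip : LipschitzOnWith (Real.toNNReal M) φ (uIcc 0 1) := by
    rw [uIcc_of_le (zero_le_one' ℝ)]
    refine LipschitzOnWith.of_dist_le_mul fun x hx y hy => ?_
    rw [Real.coe_toNNReal _ hM.le, Real.dist_eq, Real.dist_eq]
    rcases le_total x y with hxy | hxy
    · rw [abs_sub_comm, abs_sub_comm x y, abs_of_nonneg (sub_nonneg.2 (mono x y hx.1 hxy)),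
        abs_of_nonneg (sub_nonneg.2 hxy)]
      linarith [up x y hx.1 hxy]
    · rw [abs_of_nonneg (sub_nonneg.2 (mono y x hy.1 hxy)), abs_of_nonneg (sub_nonneg.2 hxy)]
      linarith [up y x hy.1 hxy]
  have hac := lip.absolutelyContinuousOnInterval
  have h1 := hac.integral_deriv_eq_sub
  have h2 := hac.ae_differentiableAt
  have h3 : ∫ x in (0 : ℝ)..1, deriv φ x = ∫ _x in (0 : ℝ)..1, M := by
    refine intervalIntegral.integral_congr_ae ?_
    have h1n : ∀ᵐ x : ℝ, x ≠ 1 := by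
      rw [ae_iff]
      simp
    filter_upwards [h2, hS, h1n] with x hx hxS hx1 hxI
    rw [uIoc_of_le (zero_le_one' ℝ)] at hxI
    have hx01 : x < 1 := lt_of_le_of_ne hxI.2 hx1
    have hd : DifferentiableAt ℝ φ x := hx (by
      rw [uIcc_of_le (zero_le_one' ℝ)]
      exact ⟨hxI.1.le, hxI.2⟩)
    have hbad := hcon x hxS hxI.1 hx01
    unfold Bk at hbad
    push Not at hbad
    obtain ⟨y, hy0, hyx, hy⟩ := hbad
    have hlt : φ x < F x := by
      have := le_of x y hy0 hyx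
      linarith
    obtain ⟨η, hη⟩ : ∃ η, η = (F x - φ x) / M := ⟨_, rfl⟩
    have hη0 : 0 < η := by rw [hη]; exact div_pos (by linarith) hM
    have hηM : M * η = F x - φ x := by rw [hη]; field_simp
    have hd1 : HasDerivWithinAt φ (deriv φ x) (Ici x) x := hd.hasDerivAt.hasDerivWithinAt
    have hd2 : HasDerivWithinAt φ M (Ici x) x := by
      have e1 : HasDerivWithinAt (fun z => φ x + M * (z - x)) M (Ici x) x := by
        have := (((hasDerivAt_id x).sub_const x).const_mul M).const_add (φ x)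
        rw [mul_one] at this
        exact this.hasDerivWithinAt
      refine e1.congr_of_eventuallyEq ?_ (by simp)
      have e2 : ∀ᶠ z in 𝓝[≥] x, z < x + η := by
        have : Iio (x + η) ∈ 𝓝 x := Iio_mem_nhds (by linarith)
        exact mem_nhdsWithin_of_mem_nhds this
      filter_upwards [e2, self_mem_nhdsWithin] with z hz hz'
      have hxz : x ≤ z := hz'
      refine le_antisymm (up x z hxI.1.le hxz) ?_
      refine ge_of z _ (hxI.1.le.trans hxz) fun t ht htz => ?_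
      rcases le_total t x with h5 | h5
      · have h6 := le_of x t ht h5
        have h7 : M * (z - t) = M * (z - x) + M * (x - t) := by ring
        linarith
      · have h6 := hF h5
        have h7 : M * (z - x) ≤ M * η := mul_le_mul_of_nonneg_left (by linarith) hM.le
        have h8 : 0 ≤ M * (z - t) := mul_nonneg hM.le (sub_nonneg.2 htz)
        linarith
    exact (uniqueDiffWithinAt_Ici x).eq_deriv _ hd1 hd2
  rw [h1, intervalIntegral.integral_const, sub_zero, one_smul] at h3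
  have h4 := le_self 1 zero_le_one
  have h5 : F 0 ≤ φ 0 := ge_of 0 _ le_rfl fun y hy hy' => by
    have : y = 0 := le_antisymm hy' hy
    rw [this, sub_self, mul_zero, add_zero]
  linarith

/-- Limits of monotone functions along an ultrafilter. -/
theorem umono (U : Ultrafilter ℕ) (f : ℕ → ℝ → ℝ) (hm : ∀ n, Monotone (f n))
    (h0 : ∀ n x, 0 ≤ f n x) (h1 : ∀ n x, f n x ≤ 1) :
    ∃ g : ℝ → ℝ, Monotone g ∧ (∀ x, 0 ≤ g x) ∧ (∀ x, g x ≤ 1) ∧
      ∀ x, Tendsto (fun n => f n x) U (𝓝 (g x)) := by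
  have h2 : ∀ x, ∃ y : ℝ, Tendsto (fun n => f n x) U (𝓝 y) := fun x =>
    ulim U _ 1 fun n => by rw [abs_of_nonneg (h0 n x)]; exact h1 n x
  choose g hg using h2
  exact ⟨g, fun x y hxy => le_of_tendsto_of_tendsto (hg x) (hg y)
    (Eventually.of_forall fun n => hm n hxy), fun x => ge_of_tendsto (hg x)
    (Eventually.of_forall fun n => h0 n x), fun x => le_of_tendsto (hg x)
    (Eventually.of_forall fun n => h1 n x), hg⟩

/-- A monotone function which is close to `g` on a grid, near a point where `g` is nearly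
affine. -/
theorem near_aff {f g : ℝ → ℝ} (hf : Monotone f) {p σ η r τ κ X : ℝ} (hσ : 0 ≤ σ) (hη : 0 ≤ η)
    (hτ : 0 < τ) (hr : X + τ ≤ r)
    (hg : ∀ z, |z - p| ≤ r → |g z - g p - σ * (z - p)| ≤ η * |z - p|) {N : ℕ}
    (hN : 1 / τ + 1 ≤ N) (hfg : ∀ j : ℕ, j ≤ N → |f (j * τ) - g (j * τ)| ≤ κ) {x : ℝ}
    (hx : |x - p| ≤ X) (hx0 : 0 ≤ x) (hx1 : x ≤ 1) :
    |f x - g p - σ * (x - p)| ≤ σ * τ + η * (X + τ) + κ := by
  obtain ⟨j, hj⟩ : ∃ j : ℕ, j = ⌊x / τ⌋₊ := ⟨_, rfl⟩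
  have j1 : (j : ℝ) ≤ x / τ := by rw [hj]; exact Nat.floor_le (by positivity)
  have j2 : x / τ < j + 1 := by rw [hj]; exact Nat.lt_floor_add_one _
  rw [le_div_iff₀ hτ] at j1
  rw [div_lt_iff₀ hτ] at j2
  have j3 : ((j + 1 : ℕ) : ℝ) ≤ N := by
    push_cast
    have : (j : ℝ) ≤ 1 / τ := by
      rw [le_div_iff₀ hτ]
      linarith
    linarith
  have j4 : j + 1 ≤ N := by exact_mod_cast j3
  have k1 := hfg j (by omega)
  have k2 := hfg (j + 1) j4
  push_cast at k2
  have a0 := abs_le.1 hx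
  have m1 : |(j : ℝ) * τ - p| ≤ X + τ := by rw [abs_le]; constructor <;> nlinarith
  have m2 : |((j : ℝ) + 1) * τ - p| ≤ X + τ := by rw [abs_le]; constructor <;> nlinarith
  have g1 := hg _ (m1.trans hr)
  have g2 := hg _ (m2.trans hr)
  have g3 := g1.trans (mul_le_mul_of_nonneg_left m1 hη)
  have g4 := g2.trans (mul_le_mul_of_nonneg_left m2 hη)
  have f1 : f ((j : ℝ) * τ) ≤ f x := hf j1
  have f2 : f x ≤ f (((j : ℝ) + 1) * τ) := hf (by nlinarith)
  have s1 : σ * (((j : ℝ) + 1) * τ - p) ≤ σ * (x - p) + σ * τ := by nlinarith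
  have s2 : σ * (x - p) - σ * τ ≤ σ * ((j : ℝ) * τ - p) := by nlinarith
  have b1 := abs_le.1 k1
  have b2 := abs_le.1 k2
  have b3 := abs_le.1 g3
  have b4 := abs_le.1 g4
  rw [abs_le]
  constructor
  · linarith [b1.1, b3.1]
  · linarith [b2.2, b4.2]

/-- Backward bound for the limit. -/
theorem back_lim {g : ℝ → ℝ} (hm : Monotone g) {p σ η r M X : ℝ} (hσM : σ ≤ M) (hη : 0 ≤ η)
    (hηM : η ≤ M) (hM : 0 < M) (hX : 0 ≤ X) (hXr : 8 * X ≤ r)
    (hg : ∀ z, |z - p| ≤ r → |g z - g p - σ * (z - p)| ≤ η * |z - p|) (hb : Bk M g p)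
    {x y : ℝ} (hx : |x - p| ≤ X) (hy0 : 0 ≤ y) (hyx : y ≤ x) :
    g x - g y ≤ 2 * M * (x - y) + 2 * (η * X) := by
  have a0 := abs_le.1 hx
  have hxr : |x - p| ≤ r := hx.trans (by linarith)
  have g1 := hg x hxr
  have g1' := (abs_le.1 (g1.trans (mul_le_mul_of_nonneg_left hx hη))).2
  rcases le_or_gt (p - r) y with hy | hy
  · have hyr : |y - p| ≤ r := by rw [abs_le]; constructor <;> linarith
    have hyd : |y - p| ≤ X + (x - y) := by rw [abs_le]; constructor <;> linarith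
    have g2 := hg y hyr
    have g2' := (abs_le.1 (g2.trans (mul_le_mul_of_nonneg_left hyd hη))).1
    have e1 : σ * (x - y) ≤ M * (x - y) := mul_le_mul_of_nonneg_right hσM (by linarith)
    have e2 : η * (x - y) ≤ M * (x - y) := mul_le_mul_of_nonneg_right hηM (by linarith)
    nlinarith
  · have g2 := hb y hy0 (by linarith)
    have e0 : g x - g p ≤ (M + η) * X := by
      rcases le_total x p with h1 | h1
      · have := hm h1
        have : 0 ≤ (M + η) * X := by positivity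
        linarith
      · have e1 : σ * (x - p) ≤ M * X := by
          have i1 : σ * (x - p) ≤ M * (x - p) := mul_le_mul_of_nonneg_right hσM (by linarith)
          have i2 : M * (x - p) ≤ M * X := mul_le_mul_of_nonneg_left (by linarith) hM.le
          linarith
        nlinarith
    have e1 : 7 * X ≤ x - y := by linarith
    have e2 : M * (7 * X) ≤ M * (x - y) := mul_le_mul_of_nonneg_left e1 hM.le
    have e3 : η * X ≤ M * X := mul_le_mul_of_nonneg_right hηM hX
    have e4 : M * (p - y) ≤ M * (x - y) + M * X := by nlinarith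
    have e5 : 0 ≤ M * X := by positivity
    have e6 : 0 ≤ η * X := by positivity
    nlinarith

/-- The slope is bounded by the constant of the backward bound. -/
theorem slope_le {g : ℝ → ℝ} {p σ M : ℝ} (hp : 0 < p) (hd : HasDerivAt g σ p) (hb : Bk M g p) :
    σ ≤ M := by
  refine le_of_forall_pos_le_add fun e he => ?_
  obtain ⟨d, hd0, h1⟩ := Metric.eventually_nhds_iff.1 (hd.isLittleO.def he)
  obtain ⟨t, ht⟩ : ∃ t, t = min (d / 2) p := ⟨_, rfl⟩
  have t0 : 0 < t := by rw [ht]; exact lt_min (by positivity) hp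
  have t1 : t ≤ d / 2 := by rw [ht]; exact min_le_left _ _
  have t2 : t ≤ p := by rw [ht]; exact min_le_right _ _
  have h2 := h1 (y := p - t) (by
    rw [Real.dist_eq, sub_sub_cancel_left, abs_neg, abs_of_pos t0]
    linarith)
  rw [Real.norm_eq_abs, Real.norm_eq_abs, smul_eq_mul, sub_sub_cancel_left, abs_neg,
    abs_of_pos t0] at h2
  have h3 := hb (p - t) (by linarith) (by linarith)
  rw [sub_sub_cancel] at h3
  have h4 := (abs_le.1 h2).2
  have h5 : σ * t ≤ (M + e) * t := by nlinarith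
  exact le_of_mul_le_mul_right h5 t0

/-- **Common affine interval** of finitely many monotone functions. -/
theorem common_mono {κ ι : Type*} [Finite κ] [Finite ι] (a b : ι → κ) {ε C M : ℝ} (hε : 0 < ε)
    (hC : 0 < C) (hM1 : 1 ≤ M) (hM : (Nat.card κ : ℝ) < M) :
    ∃ δ : ℝ, 0 < δ ∧ ∀ (f : κ → ℝ → ℝ) (d : ι → ℝ), (∀ k, Monotone (f k)) →
      (∀ k x, 0 ≤ f k x) → (∀ k x, f k x ≤ 1) → (∀ i, 0 ≤ d i) → (∀ i, d i ≤ 2) →
      (∀ i x, 0 ≤ x → x ≤ 1 → 0 ≤ d i + f (b i) x - f (a i) x) →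
      ∃ (p X : ℝ) (s : κ → ℝ), δ ≤ X ∧ X ≤ p ∧ p + X ≤ 1 ∧ (∀ k, 0 ≤ s k) ∧ (∀ k, s k ≤ M) ∧
        (∀ k x, |x - p| ≤ X → |f k x - f k p - s k * (x - p)| ≤ ε * X) ∧
        (∀ k x y, |x - p| ≤ X → 0 ≤ y → y ≤ x → f k x - f k y ≤ 2 * M * (x - y) + ε * X) ∧
        ∀ i, (∀ x, |x - p| ≤ X → C * X ≤ d i + f (b i) x - f (a i) x) ∨
          ∀ x, |x - p| ≤ X → d i + f (b i) x - f (a i) x ≤ ε * X := by
  classical
  by_contra hcon
  push Not at hcon
  have h1 : ∀ n : ℕ, ∃ (f : κ → ℝ → ℝ) (d : ι → ℝ), (∀ k, Monotone (f k)) ∧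
      (∀ k x, 0 ≤ f k x) ∧ (∀ k x, f k x ≤ 1) ∧ (∀ i, 0 ≤ d i) ∧ (∀ i, d i ≤ 2) ∧
      (∀ i x, 0 ≤ x → x ≤ 1 → 0 ≤ d i + f (b i) x - f (a i) x) ∧
      ∀ (p X : ℝ) (s : κ → ℝ), 1 / ((n : ℝ) + 1) ≤ X → X ≤ p → p + X ≤ 1 → (∀ k, 0 ≤ s k) →
        (∀ k, s k ≤ M) → (∀ k x, |x - p| ≤ X → |f k x - f k p - s k * (x - p)| ≤ ε * X) →
        (∀ k x y, |x - p| ≤ X → 0 ≤ y → y ≤ x → f k x - f k y ≤ 2 * M * (x - y) + ε * X) →
        ∃ i, (∃ x, |x - p| ≤ X ∧ d i + f (b i) x - f (a i) x < C * X) ∧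
          ∃ x, |x - p| ≤ X ∧ ε * X < d i + f (b i) x - f (a i) x := by
    intro n
    obtain ⟨f, d, k1, k2, k3, k4, k5, k6, k7⟩ := hcon (1 / ((n : ℝ) + 1)) (by positivity)
    exact ⟨f, d, k1, k2, k3, k4, k5, k6, k7⟩
  choose f d k1 k2 k3 k4 k5 k6 k7 using h1
  obtain ⟨U, hU⟩ : ∃ U : Ultrafilter ℕ, U = hyperfilter ℕ := ⟨_, rfl⟩
  have hUt : (U : Filter ℕ) ≤ atTop := by
    rw [hU, ← Nat.cofinite_eq_atTop]
    exact hyperfilter_le_cofinite
  have hf : ∀ k, ∃ g : ℝ → ℝ, Monotone g ∧ (∀ x, 0 ≤ g x) ∧ (∀ x, g x ≤ 1) ∧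
      ∀ x, Tendsto (fun n => f n k x) U (𝓝 (g x)) :=
    fun k => umono U (fun n => f n k) (fun n => k1 n k) (fun n => k2 n k) fun n => k3 n k
  choose g g1 g2 g3 g4 using hf
  have hdl : ∀ i, ∃ y : ℝ, Tendsto (fun n => d n i) U (𝓝 y) := fun i =>
    ulim U _ 2 fun n => by rw [abs_of_nonneg (k4 n i)]; exact k5 n i
  choose e he using hdl
  have h0 : ∀ i x, 0 ≤ x → x ≤ 1 → 0 ≤ e i + g (b i) x - g (a i) x := fun i x hx hx1 =>
    ge_of_tendsto (((he i).add (g4 (b i) x)).sub (g4 (a i) x))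
      (Eventually.of_forall fun n => k6 n i x hx hx1)
  -- the point
  have : Fintype κ := Fintype.ofFinite κ
  have : Fintype ι := Fintype.ofFinite ι
  obtain ⟨F, hF⟩ : ∃ F : ℝ → ℝ, F = fun x => ∑ k, g k x := ⟨_, rfl⟩
  have hFm : Monotone F := by
    rw [hF]
    exact fun x y hxy => Finset.sum_le_sum fun k _ => g1 k hxy
  have hM0 : 0 < M := by linarith
  have hF01 : F 1 - F 0 < M := by
    refine lt_of_le_of_lt ?_ hM
    rw [hF]
    show ∑ k, g k 1 - ∑ k, g k 0 ≤ _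
    rw [← Finset.sum_sub_distrib, Nat.card_eq_fintype_card]
    have : ∑ k, (g k 1 - g k 0) ≤ ∑ _k : κ, (1 : ℝ) :=
      Finset.sum_le_sum fun k _ => by linarith [g2 k 0, g3 k 1]
    simpa using this
  obtain ⟨p, hdp, p0, p1, hbF⟩ := exists_bk hFm hM0 hF01
    (S := fun p => ∀ k, DifferentiableAt ℝ (g k) p) (by
      rw [ae_all_iff]
      exact fun k => (g1 k).ae_differentiableAt)
  have hb : ∀ k, Bk M (g k) p := by
    intro k y hy hyp
    have h2 := hbF y hy hyp
    rw [hF] at h2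
    have h3 : ∑ k, g k p - ∑ k, g k y ≤ M * (p - y) := h2
    rw [← Finset.sum_sub_distrib] at h3
    refine le_trans ?_ h3
    exact Finset.single_le_sum (f := fun k => g k p - g k y)
      (fun k _ => sub_nonneg.2 (g1 k hyp)) (Finset.mem_univ k)
  obtain ⟨σ, hσ⟩ : ∃ σ : κ → ℝ, σ = fun k => deriv (g k) p := ⟨_, rfl⟩
  have hσd : ∀ k, HasDerivAt (g k) (σ k) p := by
    intro k
    rw [hσ]
    exact (hdp k).hasDerivAt
  have σ0 : ∀ k, 0 ≤ σ k := by
    intro k
    rw [hσ]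
    exact (g1 k).deriv_nonneg
  have σM : ∀ k, σ k ≤ M := fun k => slope_le p0 (hσd k) (hb k)
  obtain ⟨η, hη⟩ : ∃ η, η = min (ε / 32) (1 / 2) := ⟨_, rfl⟩
  have hη0 : 0 < η := by rw [hη]; exact lt_min (by positivity) (by norm_num)
  have hη1 : η ≤ ε / 32 := by rw [hη]; exact min_le_left _ _
  have hη2 : η ≤ M := by
    have : η ≤ 1 / 2 := by rw [hη]; exact min_le_right _ _
    linarith
  have hrad : ∃ r : ℝ, 0 < r ∧ ∀ k z, |z - p| ≤ r →
      |g k z - g k p - σ k * (z - p)| ≤ η * |z - p| := by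
    have b1 : ∀ᶠ z in 𝓝 p, ∀ k, |g k z - g k p - σ k * (z - p)| ≤ η * |z - p| := by
      rw [eventually_all]
      intro k
      filter_upwards [(hσd k).isLittleO.def hη0] with z hz
      rw [Real.norm_eq_abs, Real.norm_eq_abs, smul_eq_mul, mul_comm (z - p)] at hz
      exact hz
    obtain ⟨d, hd0, b2⟩ := Metric.eventually_nhds_iff.1 b1
    exact ⟨d / 2, by positivity, fun k z hz => b2 (by rw [Real.dist_eq]; linarith) k⟩
  obtain ⟨r, hr0, hr⟩ := hrad
  -- the radius of the interval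
  obtain ⟨H, hH⟩ : ∃ H : ι → ℝ, H = fun i => e i + g (b i) p - g (a i) p := ⟨_, rfl⟩
  obtain ⟨X, hX0, hXp, hXp1, hXr, hXH⟩ : ∃ X : ℝ, 0 < X ∧ X ≤ p ∧ p + X ≤ 1 ∧ 16 * X ≤ r ∧
      ∀ i, 0 < H i → (C + 2 * M + 8) * X ≤ H i := by
    have c1 : ∀ᶠ X in 𝓝[>] (0 : ℝ), X < min p (min (1 - p) (r / 16)) := by
      have : Iio (min p (min (1 - p) (r / 16))) ∈ 𝓝 (0 : ℝ) :=
        Iio_mem_nhds (lt_min p0 (lt_min (by linarith) (by positivity)))
      exact mem_nhdsWithin_of_mem_nhds this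
    have c2 : ∀ᶠ X in 𝓝[>] (0 : ℝ), ∀ i, 0 < H i → (C + 2 * M + 8) * X ≤ H i := by
      rw [eventually_all]
      intro i
      by_cases hi : 0 < H i
      · have : Iio (H i / (C + 2 * M + 8)) ∈ 𝓝 (0 : ℝ) := Iio_mem_nhds (by positivity)
        filter_upwards [mem_nhdsWithin_of_mem_nhds this] with X hX _
        have hX' : X < H i / (C + 2 * M + 8) := hX
        rw [lt_div_iff₀ (by positivity)] at hX'
        linarith
      · exact Eventually.of_forall fun X hc => absurd hc hi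
    obtain ⟨X, c3, c4, c5⟩ := (c1.and (c2.and self_mem_nhdsWithin)).exists
    have c6 : (0 : ℝ) < X := c5
    have c7 := lt_min_iff.1 c3
    have c8 := lt_min_iff.1 c7.2
    exact ⟨X, c6, c7.1.le, by linarith, by linarith, c4⟩
  obtain ⟨τ, hτ⟩ : ∃ τ, τ = η * X / (4 * M) := ⟨_, rfl⟩
  have hτ0 : 0 < τ := by rw [hτ]; positivity
  have hτM : 4 * M * τ = η * X := by rw [hτ]; field_simp
  have hτX : τ ≤ X := by
    have i1 : η * X ≤ M * X := mul_le_mul_of_nonneg_right hη2 hX0.le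
    have i2 : M * (4 * τ) ≤ M * X := by linarith
    have := le_of_mul_le_mul_left i2 hM0
    linarith
  obtain ⟨N, hN⟩ := exists_nat_ge (1 / τ + 1)
  obtain ⟨κ₀, hκ₀⟩ : ∃ x, x = η * X / 4 := ⟨_, rfl⟩
  have hκ0 : 0 < κ₀ := by rw [hκ₀]; positivity
  have e1 : ∀ᶠ n in (U : Filter ℕ), ∀ k, ∀ j ∈ Iic N, |f n k (((j : ℕ) : ℝ) * τ) -
      g k (((j : ℕ) : ℝ) * τ)| ≤ κ₀ := by
    rw [eventually_all]
    intro k
    rw [Filter.eventually_all_finite (Set.finite_Iic N)]
    intro j _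
    filter_upwards [Metric.tendsto_nhds.1 (g4 k (((j : ℕ) : ℝ) * τ)) κ₀ hκ0] with n hn
    rw [Real.dist_eq] at hn
    exact hn.le
  have e2 : ∀ᶠ n in (U : Filter ℕ), ∀ i, |d n i - e i| ≤ κ₀ := by
    rw [eventually_all]
    intro i
    filter_upwards [Metric.tendsto_nhds.1 (he i) κ₀ hκ0] with n hn
    rw [Real.dist_eq] at hn
    exact hn.le
  have e3 : ∀ᶠ n : ℕ in (U : Filter ℕ), 1 / ((n : ℝ) + 1) ≤ X := by
    have : Tendsto (fun n : ℕ => 1 / ((n : ℝ) + 1)) atTop (𝓝 0) :=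
      tendsto_one_div_add_atTop_nhds_zero_nat
    have h6 := hUt ((tendsto_order.1 this).2 X hX0)
    filter_upwards [h6] with n hn using hn.le
  obtain ⟨n, e4, e5, e6⟩ := (e1.and (e2.and e3)).exists
  have hfg : ∀ k, ∀ j : ℕ, j ≤ N → |f n k (j * τ) - g k (j * τ)| ≤ κ₀ := fun k j hj =>
    e4 k j hj
  have hin : ∀ x, |x - p| ≤ X → 0 ≤ x ∧ x ≤ 1 := by
    intro x hx
    rw [abs_le] at hx
    constructor <;> linarith
  have aff : ∀ k x, |x - p| ≤ X → |f n k x - g k p - σ k * (x - p)| ≤ 3 * (η * X) := by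
    intro k x hx
    have h2 := near_aff (k1 n k) (σ0 k) hη0.le hτ0 (by linarith) (hr k) hN (hfg k) hx
      (hin x hx).1 (hin x hx).2
    have h3 : σ k * τ ≤ M * τ := mul_le_mul_of_nonneg_right (σM k) hτ0.le
    have h4 : η * τ ≤ η * X := mul_le_mul_of_nonneg_left hτX hη0.le
    have h5 : η * (X + τ) = η * X + η * τ := by ring
    rw [h5, hκ₀] at h2
    have h6 : 0 < η * X := by positivity
    linarith
  have hηε : 32 * (η * X) ≤ ε * X := by
    have := mul_le_mul_of_nonneg_right hη1 hX0.le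
    linarith
  have hηX : 0 < η * X := by positivity
  have hpp : |p - p| ≤ X := by rw [sub_self, abs_zero]; exact hX0.le
  obtain ⟨i, ⟨x, hx, hx'⟩, y, hy, hy'⟩ := k7 n p X σ e6 hXp hXp1 σ0 σM (by
    intro k x hx
    have h2 := abs_le.1 (aff k x hx)
    have h3 := abs_le.1 (aff k p hpp)
    rw [sub_self, mul_zero, sub_zero] at h3
    rw [abs_le]
    constructor <;> linarith [h2.1, h2.2, h3.1, h3.2]) (by
    intro k x y hx hy hyx
    -- grid points
    obtain ⟨j, hj⟩ : ∃ j : ℕ, j = ⌊y / τ⌋₊ := ⟨_, rfl⟩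
    have j1 : (j : ℝ) ≤ y / τ := by rw [hj]; exact Nat.floor_le (by positivity)
    have j2 : y / τ < j + 1 := by rw [hj]; exact Nat.lt_floor_add_one _
    rw [le_div_iff₀ hτ0] at j1
    rw [div_lt_iff₀ hτ0] at j2
    obtain ⟨l, hl⟩ : ∃ l : ℕ, l = ⌊x / τ⌋₊ := ⟨_, rfl⟩
    have hx01 := hin x hx
    have l0 : 0 ≤ x / τ := div_nonneg hx01.1 hτ0.le
    have l1 : (l : ℝ) ≤ x / τ := by rw [hl]; exact Nat.floor_le l0
    have l2 : x / τ < l + 1 := by rw [hl]; exact Nat.lt_floor_add_one _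
    rw [le_div_iff₀ hτ0] at l1
    rw [div_lt_iff₀ hτ0] at l2
    have l3 : (l : ℝ) ≤ 1 / τ := by
      rw [le_div_iff₀ hτ0]
      linarith [hx01.2]
    have l4 : ((l + 1 : ℕ) : ℝ) ≤ N := by push_cast; linarith
    have l5 : l + 1 ≤ N := by exact_mod_cast l4
    have jl : (j : ℝ) * τ ≤ x := j1.trans hyx
    have j3 : (j : ℝ) < (l : ℝ) + 1 := by
      by_contra hc
      push Not at hc
      nlinarith
    have j4 : j < l + 1 := by exact_mod_cast j3
    have m1 := abs_le.1 (hfg k j (by omega))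
    have m2 := abs_le.1 (hfg k (l + 1) l5)
    push_cast at m2
    have f1 : f n k ((j : ℝ) * τ) ≤ f n k y := k1 n k j1
    have f2 : f n k x ≤ f n k (((l : ℝ) + 1) * τ) := k1 n k (by nlinarith)
    have hz : |((l : ℝ) + 1) * τ - p| ≤ 2 * X := by
      have := abs_le.1 hx
      rw [abs_le]
      constructor <;> nlinarith
    have h2 := back_lim (g1 k) (σM k) hη0.le hη2 hM0 (show 0 ≤ 2 * X by positivity)
      (show 8 * (2 * X) ≤ r by linarith) (hr k) (hb k) hz (show (0 : ℝ) ≤ (j : ℝ) * τ by positivity)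
      (by nlinarith)
    have h3 : ((l : ℝ) + 1) * τ - (j : ℝ) * τ ≤ (x - y) + 2 * τ := by nlinarith
    have h4 := mul_le_mul_of_nonneg_left h3 (show 0 ≤ 2 * M by positivity)
    have h5 : 2 * M * ((x - y) + 2 * τ) = 2 * M * (x - y) + η * X := by rw [← hτM]; ring
    rw [hκ₀] at m1 m2
    linarith [m1.1, m2.2])
  have q1 := abs_le.1 (e5 i)
  have hHi : 0 ≤ H i := by
    rw [hH]
    exact h0 i p p0.le p1.le
  rcases eq_or_lt_of_le hHi with h2 | h2
  · -- local minimum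
    have hmin : IsLocalMin (fun z => e i + g (b i) z - g (a i) z) p := by
      have c1 : ∀ᶠ z in 𝓝 p, z ∈ Ioo (0 : ℝ) 1 := Ioo_mem_nhds p0 p1
      filter_upwards [c1] with z hz
      have c2 : e i + g (b i) p - g (a i) p = 0 := by
        have := h2.symm
        rw [hH] at this
        exact this
      show e i + g (b i) p - g (a i) p ≤ e i + g (b i) z - g (a i) z
      rw [c2]
      exact h0 i z hz.1.le hz.2.le
    have hder : HasDerivAt (fun z => e i + g (b i) z - g (a i) z) (σ (b i) - σ (a i)) p :=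
      ((hσd (b i)).const_add (e i)).sub (hσd (a i))
    have h3 := hmin.hasDerivAt_eq_zero hder
    have c2 : e i + g (b i) p - g (a i) p = 0 := by
      have := h2.symm
      rw [hH] at this
      exact this
    have t1 := abs_le.1 (aff (b i) y hy)
    have t2 := abs_le.1 (aff (a i) y hy)
    have t3 : σ (b i) * (y - p) = σ (a i) * (y - p) := by
      rw [sub_eq_zero.1 h3]
    rw [hκ₀] at q1
    linarith [t1.2, t2.1, q1.2]
  · have h3 := hXH i h2
    rw [hH] at h3
    have h4 : (C + 2 * M + 8) * X ≤ e i + g (b i) p - g (a i) p := h3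
    have t1 := abs_le.1 (aff (b i) x hx)
    have t2 := abs_le.1 (aff (a i) x hx)
    have hx2 := abs_le.1 hx
    have s1 : -(M * X) ≤ σ (b i) * (x - p) := by
      have i1 : |σ (b i) * (x - p)| ≤ M * X := by
        rw [abs_mul, abs_of_nonneg (σ0 _)]
        exact mul_le_mul (σM _) hx (abs_nonneg _) hM0.le
      exact (abs_le.1 i1).1
    have s2 : σ (a i) * (x - p) ≤ M * X := by
      have i1 : |σ (a i) * (x - p)| ≤ M * X := by
        rw [abs_mul, abs_of_nonneg (σ0 _)]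
        exact mul_le_mul (σM _) hx (abs_nonneg _) hM0.le
      exact (abs_le.1 i1).2
    have s3 : η * X ≤ X / 2 := by
      have : η ≤ 1 / 2 := by rw [hη]; exact min_le_right _ _
      nlinarith
    rw [hκ₀] at q1
    nlinarith [t1.1, t2.2, q1.1]

end Pool.STR
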